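import Pool.Agent.R927.PigeonFinal
import Pool.Agent.W432.WB.Prime
import Pool.Agent.Y227.SO.Final

set_option autoImplicit false

/-!
Operators whose exponent differences have a denominator without small prime factors, and whose
exponent sums have another denominator.
-/

namespace Pool.Agent.R383.PC

open Finset Pool.Agent.Y227.SS Pool.Agent.W432.PC Pool.Agent.W280.PC Polynomial
open Pool.Agent.W432.WB Pool.Agent.W432.HK Pool.Agent.Y227.SO Pool.Agent.R927

/-- The inequalities for scalar operators; `phi' = phi + (n - 1) (m - 1)`. -/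
theorem ineq_op {F : Type} [Field F] [CharZero F] {m n : ℕ} (hm : 0 < m) (hn : 0 < n)
    (b : Fin (n + 1) → ℤ[X]) (hb : b (Fin.last n) ≠ 0) (α : Fin m → F) (Q : Fin (n + 1) → F[X])
    (hF : IsFuchs b α Q) (lam : Fin m → Fin n → ℚ) (phi : Fin n → ℚ) (hE : HasExps α Q lam phi)
    (N : ℕ) (hN0 : 0 < N) (e : Fin m → Fin n → ℤ) (e' : Fin n → ℤ)
    (he : ∀ j l, (N : ℚ) * lam j l = e j l)
    (he' : ∀ l, (N : ℚ) * (phi l + (((n - 1) * (m - 1) : ℕ) : ℚ)) = e' l)
    (a : ℤ)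
    (hno : ¬ ∃ P₀ : ℕ, ∀ p : ℕ, P₀ < p → (N : ℤ) ∣ a * p + 1 → ∀ _hp : Fact p.Prime, ¬ FullMod b p) :
    ∃ (σ : Fin m → Equiv.Perm (Fin n)) (τ : Equiv.Perm (Fin n)),
      (∀ j, Monotone fun l => wI N a (e j (σ j l))) ∧ (Monotone fun l => wI N a (e' (τ l))) ∧
      ∀ (M q : ℤ) (κ : Fin m → Fin n) (s : Fin n),
        ∑ j, ∑ l, wI N a (e j l) - ∑ l, wI N a (e' l) = M * N →
        M + ∑ j, ((κ j : ℕ) : ℤ) = n * q + (s : ℕ) →
        ∑ j, wI N a (e j (σ j (κ j))) ≤ q * N + wI N a (e' (τ s)) := by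
  have hNq : (0 : ℚ) < N := by exact_mod_cast hN0
  set c : ℚ := (((n - 1) * (m - 1) : ℕ) : ℚ) with hc
  set phi' : Fin n → ℚ := fun l => phi l + c with hphi'
  choose σ hσ using fun j => exists_sorted a (lam j)
  obtain ⟨τ, hτ⟩ := exists_sorted a phi'
  have hmono : ∀ {x y : ℚ} {u v : ℤ}, (N : ℚ) * x = u → (N : ℚ) * y = v → lexLE a x y →
      wI N a u ≤ wI N a v := by
    intro x y u v hx hy hxy
    have h1 : wt a x ≤ wt a y := by
      rcases hxy with h | h
      · exact h.le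
      · exact h.1.le
    have h2 := mul_le_mul_of_nonneg_left h1 hNq.le
    rw [wt_wI hN0 hx, wt_wI hN0 hy] at h2
    exact_mod_cast h2
  refine ⟨σ, τ, fun j l l' h => hmono (he j _) (he j _) (hσ j l l' h),
    fun l l' h => hmono (he' _) (he' _) (hτ l l' h), ?_⟩
  intro M q κ s hM hq
  by_contra hcon
  push Not at hcon
  apply hno
  have hw : ∀ j l, wt a (lam j l) = (wI N a (e j l) : ℚ) / N := fun j l => by
    rw [← wt_wI hN0 (he j l)]; field_simp
  have hw' : ∀ l, wt a (phi' l) = (wI N a (e' l) : ℚ) / N := fun l => by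
    rw [← wt_wI hN0 (he' l)]
    show wt a (phi l + c) = _
    field_simp
  have hq' : ∑ j, ∑ l, wt a (lam j (σ j l)) - ∑ l, wt a (phi' (τ l)) + ∑ j, ((κ j : ℕ) : ℚ) =
      q * n + (s : ℕ) := by
    have h1 : ∀ j, ∑ l, wt a (lam j (σ j l)) = ∑ l, wt a (lam j l) := fun j =>
      Equiv.sum_comp (σ j) (fun l => wt a (lam j l))
    have h2 : ∑ l, wt a (phi' (τ l)) = ∑ l, wt a (phi' l) :=
      Equiv.sum_comp τ (fun l => wt a (phi' l))
    rw [Finset.sum_congr rfl (fun j _ => h1 j), h2]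
    simp only [hw, hw']
    have h3 := congrArg (fun x : ℤ => (x : ℚ)) hM
    have h4 := congrArg (fun x : ℤ => (x : ℚ)) hq
    push_cast at h3 h4
    simp only [← Finset.sum_div]
    rw [← sub_div, h3]
    have h5 : (M : ℚ) * N / N = M := by field_simp
    rw [h5]
    linarith
  have hlt' : q + wt a (phi' (τ s)) < ∑ j, wt a (lam j (σ j (κ j))) := by
    simp only [hw, hw']
    rw [← Finset.sum_div, lt_div_iff₀ hNq]
    have h3 : ((q * N + wI N a (e' (τ s)) : ℤ) : ℚ) < ((∑ j, wI N a (e j (σ j (κ j))) : ℤ) : ℚ) := by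
      exact_mod_cast hcon
    push_cast at h3
    calc ((q : ℚ) + (wI N a (e' (τ s)) : ℚ) / N) * N = q * N + wI N a (e' (τ s)) := by field_simp
      _ < _ := h3
  have hE' : HasExps α Q (fun j l => lam j (σ j l)) (fun l => phi (τ l)) := by
    refine ⟨fun j => ?_, ?_⟩
    · rw [hE.1 j]
      congr 1
      exact (Equiv.prod_comp (σ j) (fun l => (Polynomial.X - Polynomial.C ((lam j l : ℚ) : F)))).symm
    · rw [hE.2]
      exact (Equiv.prod_comp τ (fun l => (Polynomial.X - Polynomial.C ((phi l : ℚ) : F)))).symm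
  have hN1 : ∀ l, ∃ z : ℤ, (N : ℚ) * phi l = z := by
    intro l
    refine ⟨e' l - (N : ℤ) * (((n - 1) * (m - 1) : ℕ) : ℤ), ?_⟩
    rw [Int.cast_sub, ← he' l, Int.cast_mul, Int.cast_natCast, Int.cast_natCast]
    ring
  exact main_field hm hn b hb α Q hF (fun j l => lam j (σ j l)) (fun l => phi (τ l)) hE' N hN0
    (fun j l => ⟨_, he j _⟩) (fun l => hN1 _) a hσ hτ κ s q hq' hlt'.le
    (fun heq => absurd heq hlt'.ne)

/-- If the inequality is violated, by exponents whose sum is not an integer, the reductions at the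
primes of the residue class do not have a full basis of rational solutions. -/
theorem star_op {F : Type} [Field F] [CharZero F] {m n : ℕ} (hm : 0 < m) (hn : 0 < n)
    (b : Fin (n + 1) → ℤ[X]) (hb : b (Fin.last n) ≠ 0) (α : Fin m → F) (Q : Fin (n + 1) → F[X])
    (hF : IsFuchs b α Q) (lam : Fin m → Fin n → ℚ) (phi : Fin n → ℚ) (hE : HasExps α Q lam phi)
    (N : ℕ) (hN0 : 0 < N) (e : Fin m → Fin n → ℤ) (e' : Fin n → ℤ)
    (he : ∀ j l, (N : ℚ) * lam j l = e j l)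
    (he' : ∀ l, (N : ℚ) * (phi l + (((n - 1) * (m - 1) : ℕ) : ℚ)) = e' l)
    (htr : (N : ℤ) ∣ ∑ j, ∑ l, e j l - ∑ l, e' l)
    (a : ℤ) (κ : Fin m → Fin n) (s : Fin n)
    (hres : ¬ (N : ℤ) ∣ a * (∑ j, e j (κ j) - e' s))
    (hviol : ∑ j, ∑ l, ((a * (e j l - e j (κ j))) % N) + ∑ l, ((a * (e' s - e' l)) % N) +
      n * ((a * (∑ j, e j (κ j) - e' s)) % N) < (n : ℤ) * N) :
    ∃ P₀ : ℕ, ∀ p : ℕ, P₀ < p → (N : ℤ) ∣ a * p + 1 → ∀ _hp : Fact p.Prime, ¬ FullMod b p := by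
  by_contra hno
  have hN' : (0 : ℤ) < N := by exact_mod_cast hN0
  have hr' : (0 : ℤ) < n := by exact_mod_cast hn
  obtain ⟨σ, τ, m1, m2, hI⟩ := ineq_op hm hn b hb α Q hF lam phi hE N hN0 e e' he he' a hno
  -- the integer M
  obtain ⟨M, hM⟩ : ∃ M : ℤ, ∑ j, ∑ l, wI N a (e j l) - ∑ l, wI N a (e' l) = M * N := by
    have hd : ∀ e : Fin n → ℤ, (N : ℤ) ∣ ∑ l, wI N a (e l) - a * ∑ l, e l := by
      intro e
      rw [Finset.mul_sum, ← Finset.sum_sub_distrib]
      exact Finset.dvd_sum fun l _ => wI_mod a (e l)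
    have h1 : (N : ℤ) ∣ ∑ j, (∑ l, wI N a (e j l) - a * ∑ l, e j l) :=
      Finset.dvd_sum fun j _ => hd (e j)
    obtain ⟨u1, h1⟩ := h1
    obtain ⟨u2, h2⟩ := hd e'
    obtain ⟨u3, h3⟩ := htr
    rw [Finset.sum_sub_distrib, ← Finset.mul_sum] at h1
    exact ⟨u1 - u2 + a * u3, by linear_combination h1 - h2 + a * h3⟩
  have hL := hI M
  -- bounds
  have bnd : ∀ (f : Fin n → ℤ) (ρ : Equiv.Perm (Fin n)) (l l' : Fin n),
      wI N a (f (ρ l)) ≤ wI N a (f (ρ l')) + N := by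
    intro f ρ l l'
    have k1 := wI_le hN0 a (f (ρ l))
    have k2 := wI_nonneg hN0 a (f (ρ l'))
    linarith
  -- the staircases
  have hX : ∀ j, ∃ i, ext N hn (fun l => wI N a (e j (σ j l))) i = wI N a (e j (κ j)) ∧
      (N : ℤ) * i = n * wI N a (e j (κ j)) + ∑ l, ((a * (e j l - e j (κ j))) % N) -
        ∑ l, wI N a (e j l) := by
    intro j
    have h0 : ext N hn (fun l => wI N a (e j (σ j l))) ((((σ j).symm (κ j) : Fin n) : ℕ) : ℤ) =
        wI N a (e j (κ j)) := by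
      have := ext_apply (D := (N : ℤ)) (hr := hn) (x := fun l => wI N a (e j (σ j l)))
        ((σ j).symm (κ j)) 0
      rw [mul_zero, add_zero, mul_zero, add_zero] at this
      rw [this]
      simp
    obtain ⟨i, h1, h2⟩ := exists_min hN' (m1 j) (fun l l' => bnd (e j) (σ j) l l') h0
    refine ⟨i, h1, ?_⟩
    rw [h2, Equiv.sum_comp (σ j) (fun l => wI N a (e j l)),
      Equiv.sum_comp (σ j) (fun l => ((wI N a (e j l) - wI N a (e j (κ j))) % (N : ℤ)))]
    congr 2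
    refine Finset.sum_congr rfl fun l _ => ?_
    apply Int.ModEq.symm
    rw [Int.modEq_iff_dvd]
    obtain ⟨y1, hy1⟩ := wI_mod (D := N) a (e j l)
    obtain ⟨y2, hy2⟩ := wI_mod (D := N) a (e j (κ j))
    exact ⟨y1 - y2, by linear_combination hy1 - hy2⟩
  choose I hI1 hI2 using hX
  set D0 : ℤ := (a * (∑ j, e j (κ j) - e' s)) % N with hD0
  have hD0' : 0 < D0 := by
    rcases (Int.emod_nonneg (a * (∑ j, e j (κ j) - e' s)) hN'.ne').lt_or_eq with h | h
    · exact h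
    · exact absurd (Int.dvd_of_emod_eq_zero h.symm) hres
  set v' : ℤ := ∑ j, wI N a (e j (κ j)) - D0 with hv'
  -- v' is a value
  obtain ⟨z, hz⟩ : ∃ z, v' - wI N a (e' s) = N * z := by
    have h1 : (N : ℤ) ∣ ∑ j, (wI N a (e j (κ j)) - a * e j (κ j)) :=
      Finset.dvd_sum fun j _ => wI_mod a _
    obtain ⟨y1, hy1⟩ := h1
    rw [Finset.sum_sub_distrib, ← Finset.mul_sum] at hy1
    obtain ⟨y2, hy2⟩ := wI_mod (D := N) a (e' s)
    have h3 := Int.mul_ediv_add_emod (a * (∑ j, e j (κ j) - e' s)) N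
    rw [← hD0] at h3
    exact ⟨y1 - y2 + (a * (∑ j, e j (κ j) - e' s)) / N, by
      rw [hv']; linear_combination hy1 - hy2 - h3⟩
  have h0 : ext N hn (fun l => wI N a (e' (τ l))) (((τ.symm s : Fin n) : ℕ) + n * z) = v' := by
    rw [ext_apply]
    simp only [Equiv.apply_symm_apply]
    linarith
  obtain ⟨k, hkv, -, hk2⟩ := exists_max hN' m2 (fun l l' => bnd e' τ l l') h0
  have hk3 : ∑ l, ((v' - wI N a (e' (τ l))) % (N : ℤ)) = ∑ l, ((a * (e' s - e' l)) % N) := by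
    rw [Equiv.sum_comp τ (fun l => ((v' - wI N a (e' l)) % (N : ℤ)))]
    refine Finset.sum_congr rfl fun l _ => ?_
    apply Int.ModEq.symm
    rw [Int.modEq_iff_dvd]
    obtain ⟨y1, hy1⟩ := wI_mod (D := N) a (e' l)
    obtain ⟨y2, hy2⟩ := wI_mod (D := N) a (e' s)
    exact ⟨z + y2 - y1, by linear_combination hz + hy2 - hy1⟩
  rw [hk3, Equiv.sum_comp τ (fun l => wI N a (e' l))] at hk2
  -- the inequality
  have hstrict : ∑ j, wI N a (e j (κ j)) ≤
      ext N hn (fun l => wI N a (e' (τ l))) (∑ j, I j + M) := by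
    choose t ht1 ht2 using fun j =>
      ext_eq (D := (N : ℤ)) (hr := hn) (x := fun l => wI N a (e j (σ j l))) (I j)
    obtain ⟨t', ht1', ht2'⟩ :=
      ext_eq (D := (N : ℤ)) (hr := hn) (x := fun l => wI N a (e' (τ l))) (∑ j, I j + M)
    have hdec : ∀ j, I j = n * (I j / n) + (t j : ℕ) := fun j => by
      rw [ht1 j]; exact (Int.mul_ediv_add_emod _ _).symm
    have hdec' : ∑ j, I j + M = n * ((∑ j, I j + M) / n) + (t' : ℕ) := by
      rw [ht1']; exact (Int.mul_ediv_add_emod _ _).symm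
    have h1 := hL ((∑ j, I j + M) / n - ∑ j, (I j / n)) t t' hM (by
      have h2 : ∑ j, I j = n * ∑ j, (I j / n) + ∑ j, ((t j : ℕ) : ℤ) := by
        rw [Finset.mul_sum, ← Finset.sum_add_distrib]
        exact Finset.sum_congr rfl fun j _ => hdec j
      linear_combination hdec' - h2)
    rw [ht2']
    have h3 : ∑ j, wI N a (e j (κ j)) = ∑ j, wI N a (e j (σ j (t j))) + N * ∑ j, (I j / n) := by
      rw [Finset.mul_sum, ← Finset.sum_add_distrib]
      refine Finset.sum_congr rfl fun j _ => ?_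
      rw [← hI1 j, ht2 j]
    rw [h3]
    linarith
  have hkm : k + 1 ≤ ∑ j, I j + M := by
    by_contra hcon
    push Not at hcon
    have h1 : ∑ j, I j + M ≤ k := by linarith
    have hm2 := ext_mono (hr := hn) hN'.le m2 (fun l l' => bnd e' τ l l')
    linarith [hm2 h1]
  have hfin := mul_le_mul_of_nonneg_left hkm hN'.le
  rw [hk2, mul_add, Finset.mul_sum, Finset.sum_congr rfl (fun j _ => hI2 j),
    Finset.sum_sub_distrib, Finset.sum_add_distrib, ← Finset.mul_sum] at hfin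
  rw [hv'] at hfin
  linarith

/-- The main theorem for operators. -/
theorem rough_op {m n : ℕ} (hm : 1 ≤ m) (hn : 1 ≤ n) (b : Fin (n + 1) → ℤ[X])
    (α : Fin m → AlgebraicClosure ℚ) (lam : Fin m → Fin n → ℚ) (phi : Fin n → ℚ)
    (hFu : FuchsianWith b α lam phi) (D : ℕ) (hD : 0 < D)
    (hrough : ∀ q : ℕ, q.Prime → q ∣ D → (4 * n ^ 2 * (m + 1)) ^ ((m + 1) * (n - 1)) < q)
    (hDlam : ∀ j l l', ∃ z : ℤ, (D : ℚ) * (lam j l - lam j l') = z)
    (hDphi : ∀ l l', ∃ z : ℤ, (D : ℚ) * (phi l - phi l') = z)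
    (κ : Fin m → Fin n) (s : Fin n)
    (hclass : ¬ ∃ z : ℤ, (D : ℚ) * (∑ j, lam j (κ j) - phi s) = z)
    (M : ℕ) (hM : CommonDen lam phi M) :
    ∃ a : ℤ, IsCoprime a (M : ℤ) ∧
      ∃ P₀ : ℕ, ∀ p : ℕ, P₀ < p → (M : ℤ) ∣ a * p + 1 →
        ∀ _hp : Fact p.Prime, ¬ FullMod b p := by
  obtain ⟨hM0, hMl, hMp⟩ := hM
  obtain ⟨hb, Q, hF, hE⟩ := hFu
  set c : ℕ := (n - 1) * (m - 1) with hc
  choose f hf using hMl
  choose f₀ hf₀ using hMp
  set f' : Fin n → ℤ := fun l => f₀ l + M * c with hf'd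
  have hf' : ∀ l, (M : ℚ) * (phi l + (c : ℚ)) = f' l := by
    intro l
    rw [hf'd]; push_cast; rw [← hf₀ l]; ring
  have hMq : (M : ℚ) ≠ 0 := by exact_mod_cast hM0.ne'
  have hD' : (0 : ℤ) < D := by exact_mod_cast hD
  -- the Fuchs relation
  have htr : ∃ T : ℤ, ∑ j, ∑ l, f j l = ∑ l, f' l + (M : ℤ) * T := by
    have h := fuchs (n := n) (by omega) (by omega) hF.inj hF.last hF.deg hE.1 hE.2
    refine ⟨-∑ i, ((cw m n i : ℕ) : ℤ), ?_⟩
    have h2 : ((∑ j, ∑ l, f j l : ℤ) : ℚ) =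
        ((∑ l, f' l + (M : ℤ) * (-∑ i, ((cw m n i : ℕ) : ℤ)) : ℤ) : ℚ) := by
      push_cast
      have h3 : ∑ j, ∑ l, ((f j l : ℤ) : ℚ) = (M : ℚ) * ∑ j, ∑ l, lam j l := by
        rw [Finset.mul_sum]
        refine Finset.sum_congr rfl fun j _ => ?_
        rw [Finset.mul_sum]
        exact Finset.sum_congr rfl fun l _ => (hf j l).symm
      have h4 : ∑ l, ((f' l : ℤ) : ℚ) = (M : ℚ) * ∑ l, (phi l + (c : ℚ)) := by
        rw [Finset.mul_sum]
        exact Finset.sum_congr rfl fun l _ => (hf' l).symm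
      rw [h3, h4, ← h]
      push_cast
      ring
    exact_mod_cast h2
  obtain ⟨T, hT⟩ := htr
  have hn0 : 0 < n := hn
  -- the exponents at infinity with the exact relation
  set f2 : Fin n → ℤ := fun l => f' l + if l = ⟨0, hn0⟩ then (M : ℤ) * T else 0 with hf2
  have hMdvd : ∀ l, (M : ℤ) ∣ f2 l - f' l := by
    intro l
    rw [hf2]
    by_cases hl : l = ⟨0, hn0⟩
    · simp [hl]
    · simp [hl]
  have htr2 : ∑ j, ∑ l, f j l = ∑ l, f2 l := by
    have h0 : ∑ l, f2 l = ∑ l, f' l + ∑ l, (if l = (⟨0, hn0⟩ : Fin n) then (M : ℤ) * T else 0) :=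
      Finset.sum_add_distrib
    rw [h0, Finset.sum_ite_eq', if_pos (Finset.mem_univ _)]
    exact hT
  have h1 : ∀ j l l', (M : ℤ) ∣ D * f j l - D * f j l' := by
    intro j l l'
    obtain ⟨z, hz⟩ := hDlam j l l'
    refine ⟨z, ?_⟩
    have : ((D * f j l - D * f j l' : ℤ) : ℚ) = ((M * z : ℤ) : ℚ) := by
      push_cast; rw [← hz, ← hf, ← hf]; ring
    exact_mod_cast this
  have h2 : ∀ l l', (M : ℤ) ∣ D * f2 l - D * f2 l' := by
    intro l l'
    obtain ⟨z, hz⟩ := hDphi l l'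
    have : ((D * f' l - D * f' l' : ℤ) : ℚ) = ((M * z : ℤ) : ℚ) := by
      push_cast; rw [← hz, ← hf', ← hf']; ring
    have h20 : (D : ℤ) * f' l - D * f' l' = M * z := by exact_mod_cast this
    obtain ⟨u, hu⟩ := hMdvd l
    obtain ⟨w, hw⟩ := hMdvd l'
    exact ⟨D * u + z - D * w, by linear_combination D * hu + h20 - D * hw⟩
  have h3 : ¬ (M : ℤ) ∣ ∑ j, D * f j (κ j) - D * f2 s := by
    rintro ⟨z, hz⟩
    obtain ⟨v, hv⟩ := hMdvd s
    apply hclass
    refine ⟨z + D * v + D * c, ?_⟩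
    have h4 : (∑ j, D * f j (κ j) - D * f' s : ℤ) = M * (z + D * v) := by
      linear_combination hz + D * hv
    have h5 := congrArg (fun x : ℤ => (x : ℚ)) h4
    push_cast at h5
    simp only [← hf] at h5
    rw [← hf' s] at h5
    have h6 : (M : ℚ) * (D * (∑ j, lam j (κ j) - phi s)) = M * (z + D * v + D * c) := by
      have h7 : (M : ℚ) * (z + D * v) =
          ∑ j, (D : ℚ) * (M * lam j (κ j)) - D * (M * (phi s + c)) := h5.symm
      rw [mul_add, h7, mul_sub, mul_sub, mul_sum, mul_sum]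
      have : ∑ j, (D : ℚ) * (M * lam j (κ j)) = ∑ j, (M : ℚ) * (D * lam j (κ j)) :=
        Finset.sum_congr rfl fun j _ => by ring
      rw [this]
      ring
    push_cast
    exact mul_left_cancel₀ hMq h6
  obtain ⟨a, κ', s', ha, hres, hviol⟩ := exists_viol hn0 hD hM0 hrough (fun j l => D * f j l)
    (fun l => D * f2 l) (by simp only [← Finset.mul_sum]; rw [htr2]) h1 h2 κ s h3
  -- division by `D`
  have hdiv : ∀ x : ℤ, (D * x) % ((M * D : ℕ) : ℤ) = D * (x % (M : ℤ)) := by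
    intro x
    push_cast
    rw [mul_comm (M : ℤ) (D : ℤ), Int.mul_emod_mul_of_pos _ _ hD']
  have hdiv1 : ∀ x y : ℤ, (a * (D * x - D * y)) % ((M * D : ℕ) : ℤ) =
      D * ((a * (x - y)) % (M : ℤ)) := by
    intro x y
    rw [← hdiv]; congr 1; ring
  have hsum : ∑ j, (D : ℤ) * f j (κ' j) = D * ∑ j, f j (κ' j) := by rw [Finset.mul_sum]
  simp only [hsum, hdiv1] at hviol hres
  have hmod : ∀ x y : ℤ, (M : ℤ) ∣ x - y → ∀ w z : ℤ,
      (a * (w * x + z)) % (M : ℤ) = (a * (w * y + z)) % (M : ℤ) := by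
    intro x y hxy w z
    apply Int.ModEq.symm
    rw [Int.modEq_iff_dvd]
    obtain ⟨u, hu⟩ := hxy
    exact ⟨a * w * u, by linear_combination a * w * hu⟩
  have ha' : IsCoprime a (M : ℤ) := by
    push_cast at ha
    exact ha.of_mul_right_left
  refine ⟨a, ha', star_op (by omega) hn0 b hb α Q hF lam phi hE M hM0 f f' hf hf'
    ⟨T, by linarith⟩ a κ' s' ?_ ?_⟩
  · intro h
    apply hres
    obtain ⟨u, hu⟩ := hMdvd s'
    obtain ⟨v, hv⟩ := h
    exact ⟨v - a * u, by push_cast; linear_combination D * hv - D * a * hu⟩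
  · have hviol' : (D : ℤ) * (∑ j, ∑ l, ((a * (f j l - f j (κ' j))) % (M : ℤ)) +
        ∑ l, ((a * (f2 s' - f2 l)) % (M : ℤ)) +
        n * ((a * (∑ j, f j (κ' j) - f2 s')) % (M : ℤ))) < D * ((n : ℤ) * M) := by
      refine lt_of_eq_of_lt ?_ (lt_of_lt_of_eq hviol ?_)
      · simp only [mul_add, Finset.mul_sum]
        ring
      · push_cast; ring
    refine lt_of_le_of_lt (le_of_eq ?_) (lt_of_mul_lt_mul_left hviol' hD'.le)
    congr 1
    · congr 1
      refine Finset.sum_congr rfl fun l _ => ?_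
      have k1 := hmod _ _ (hMdvd s') 1 (-f' l)
      have k2 := hmod _ _ (hMdvd l) (-1) (f2 s')
      have k3 : a * (f2 s' - f2 l) = a * (-1 * f2 l + f2 s') := by ring
      have k4 : a * (f' s' - f' l) = a * (1 * f' s' + -f' l) := by ring
      have k5 : a * (1 * f2 s' + -f' l) = a * (-1 * f' l + f2 s') := by ring
      rw [k3, k4, k2, ← k1, k5]
    · congr 1
      have k1 := hmod _ _ (hMdvd s') (-1) (∑ j, f j (κ' j))
      have k2 : a * (∑ j, f j (κ' j) - f2 s') = a * (-1 * f2 s' + ∑ j, f j (κ' j)) := by ring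
      have k3 : a * (∑ j, f j (κ' j) - f' s') = a * (-1 * f' s' + ∑ j, f j (κ' j)) := by ring
      rw [k2, k3, k1]

end Pool.Agent.R383.PC
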